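import Mathlib
import Pool.Agent.H6Crit

set_option autoImplicit false

open Set Pool.Agent.H6Crit

namespace Pool.Agent.Results.MP_829c31_lc.MinimalLines

theorem result (B C : Type) [LinearOrder B] [LinearOrder C]
    (hBu : Uncountable B) (hBm : ∀ S : Set B, ¬ S.Countable → Nonempty (B ↪o S))
    (hBq : Nonempty (ℚ ↪o B))
    (hCu : Uncountable C) (hCm : ∀ S : Set C, ¬ S.Countable → Nonempty (C ↪o S))
    (hCq : Nonempty (ℚ ↪o C))
    (hBC : IsEmpty (B ↪o C)) (hCB : IsEmpty (C ↪o B)) :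
    (∀ L : Set (Lex (ℕ × Lex (B ⊕ C))), IsLowerSet L → L ≠ Set.univ →
        Nonempty (Lex (ℕ × Lex (B ⊕ C)) ↪o ↥(Lᶜ)) ∧ IsEmpty (Lex (ℕ × Lex (B ⊕ C)) ↪o ↥L)) ∧
    (∀ (β : Type) [LinearOrder β], Nonempty (β ↪o Lex (ℕ × Lex (B ⊕ C))) →
        IsEmpty (Lex (ℕ × Lex (B ⊕ C)) ↪o β) →
        ∃ a : Lex (ℕ × Lex (B ⊕ C)), Nonempty (β ↪o ↥(Set.Iio a))) ∧
    ¬ WellFoundedLT (Lex (ℕ × Lex (B ⊕ C))) := by
  have hB : H6Crit.Min B := ⟨hBu, hBm, hBq⟩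
  have hC : H6Crit.Min C := ⟨hCu, hCm, hCq⟩
  have nBC : ¬ Emb B C := fun h => hBC.false (emb_iff.1 h).some
  have nCB : ¬ Emb C B := fun h => hCB.false (emb_iff.1 h).some
  obtain ⟨q⟩ := hBq
  refine ⟨fun L hL hne => ?_, fun β _ hβ hn => ?_, fun hw => ?_⟩
  · obtain ⟨a, ha⟩ := (ne_univ_iff_exists_notMem L).1 hne
    constructor
    · refine emb_iff.1 ⟨fun z => ⟨toLex ((ofLex z).1 + (ofLex a).1 + 1, (ofLex z).2), ?_⟩, ?_⟩
      · intro h
        refine ha (hL (le_of_lt ?_) h)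
        exact Prod.Lex.lt_iff.2 (Or.inl (by simp))
      · intro x y hxy
        change (toLex _ : Lex (ℕ × Lex (B ⊕ C))) < toLex _
        rw [Prod.Lex.toLex_lt_toLex]
        rcases Prod.Lex.lt_iff.1 hxy with h | ⟨h, h'⟩
        · left; dsimp only; omega
        · right; exact ⟨by dsimp only; omega, h'⟩
    · refine ⟨fun e => ?_⟩
      obtain ⟨x, hx⟩ := unbdd nBC nCB (fun z => (e z).1) (fun _ _ h => e.strictMono h) (lev a + 1)
      exact ha (hL (lt_of_lev (Nat.lt_of_succ_le hx)).le (e x).2)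
  · obtain ⟨f⟩ := hβ
    obtain ⟨N, g, hg, hN⟩ := tail hB hC f f.strictMono (fun h => hn.false (emb_iff.1 h).some)
    refine ⟨pt0 (N + 1) (q 0), emb_iff.1 ⟨fun y => ⟨g y, ?_⟩, fun _ _ h => hg h⟩⟩
    apply lt_of_lev
    have := hN y
    rw [lev0]; omega
  · have hs : StrictAnti fun n : ℕ => (pt0 0 (q (-(n : ℚ))) : Alt B C) :=
      strictAnti_nat_of_succ_lt fun n =>
        (lt00 _ _ _).2 (q.strictMono (by push_cast; linarith))
    obtain ⟨_, ⟨n, rfl⟩, hn⟩ := hw.wf.has_min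
      (range fun n : ℕ => (pt0 0 (q (-(n : ℚ))) : Alt B C)) (range_nonempty _)
    exact hn _ ⟨n + 1, rfl⟩ (hs (Nat.lt_succ_self n))

end Pool.Agent.Results.MP_829c31_lc.MinimalLines
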